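import Pool.Agent.LeoK.UpStmts

/-! # Squad leok, module NOR: real embeddings and norms -/

set_option autoImplicit false

open NumberField IsDedekindDomain Module MeasureTheory

namespace Pool.Agent.LeoK.H83

open Pool.Agent.LeoK

/-- Real embeddings of a totally real field are its complex embeddings. -/
noncomputable def eSg (k : Type) [Field k] [NumberField k] [IsTotallyReal k] :
    Sg k ≃ (k →+* ℂ) where
  toFun s := Complex.ofRealHom.comp s
  invFun φ := (IsTotallyReal.complexEmbedding_isReal φ).embedding
  left_inv s := by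
    ext x
    have h := ComplexEmbedding.IsReal.coe_embedding_apply
      (IsTotallyReal.complexEmbedding_isReal (Complex.ofRealHom.comp s)) x
    exact Complex.ofReal_injective h
  right_inv φ := by
    ext x
    exact ComplexEmbedding.IsReal.coe_embedding_apply
      (IsTotallyReal.complexEmbedding_isReal φ) x

theorem eSg_apply (k : Type) [Field k] [NumberField k] [IsTotallyReal k] (s : Sg k) (x : k) :
    eSg k s x = (s x : ℂ) := rfl

theorem nor : NorStmt := by
  intro k _ _ htr
  have h1 : ∀ x : k, ∏ s : Sg k, s x = ((Algebra.norm ℚ x : ℚ) : ℝ) := by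
    intro x
    have h := Algebra.norm_eq_prod_embeddings ℚ ℂ x
    rw [← Fintype.prod_equiv ((eSg k).trans (RingHom.equivRatAlgHom k ℂ)) (fun s => ((s x : ℝ) : ℂ)) _
      (fun s => rfl)] at h
    apply Complex.ofReal_injective
    rw [Complex.ofReal_prod, ← h]
    simp
  have h2 : ∀ x : 𝓞 k, ∏ s : Sg k, |s (x : k)| = (Ideal.absNorm (Ideal.span {x}) : ℝ) := by
    intro x
    rw [← Finset.abs_prod, h1, ← Algebra.coe_norm_int, Ideal.absNorm_span_singleton]
    push_cast
    rw [Nat.cast_natAbs]
    push_cast
    rfl
  refine ⟨?_, h1, ?_⟩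
  · rw [← NumberField.Embeddings.card k ℂ]
    exact Fintype.card_congr (eSg k)
  · intro x hx
    refine ⟨?_, h2 x⟩
    rw [h2]
    have : Ideal.absNorm (Ideal.span {x}) ≠ 0 := by
      rw [Ne, Ideal.absNorm_eq_zero_iff, Ideal.span_singleton_eq_bot]
      exact hx
    exact_mod_cast Nat.one_le_iff_ne_zero.2 this

end Pool.Agent.LeoK.H83
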