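import Pool.Agent.Helper83_LeoK.Nor

/-! # Squad leok, module FRA: a frame exists -/

set_option autoImplicit false

open NumberField IsDedekindDomain Module MeasureTheory NumberField.InfinitePlace
open NumberField.mixedEmbedding NumberField.mixedEmbedding.fundamentalCone

namespace Pool.Agent.LeoK.H83

open Pool.Agent.LeoK

set_option linter.unusedSectionVars false

variable (k : Type) [Field k] [NumberField k] [IsTotallyReal k]

/-- Real embeddings and real places. -/
noncomputable def pl : Sg k ≃ {w : InfinitePlace k // IsReal w} where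
  toFun s := ⟨InfinitePlace.mk (Complex.ofRealHom.comp s), IsTotallyReal.isReal _⟩
  invFun w := embedding_of_isReal w.2
  left_inv s := by
    ext x
    apply Complex.ofReal_injective
    rw [embedding_of_isReal_apply,
      embedding_mk_eq_of_isReal (IsTotallyReal.complexEmbedding_isReal (Complex.ofRealHom.comp s))]
    rfl
  right_inv w := by
    apply Subtype.ext
    have h : Complex.ofRealHom.comp (embedding_of_isReal w.2) = InfinitePlace.embedding w.1 := by
      ext x
      exact embedding_of_isReal_apply w.2 x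
    change InfinitePlace.mk (Complex.ofRealHom.comp (embedding_of_isReal w.2)) = w.1
    rw [h, mk_embedding]

theorem pl_apply (s : Sg k) (x : k) : embedding_of_isReal (pl k s).2 x = s x :=
  DFunLike.congr_fun ((pl k).symm_apply_apply s) x

theorem place_apply (s : Sg k) (x : k) : (pl k s).1 x = |s x| := by
  rw [← norm_embedding_of_isReal (pl k s).2, pl_apply, Real.norm_eq_abs]

/-- The mixed space of a totally real field. -/
noncomputable def Llin : mixedSpace k ≃ₗ[ℝ] (Sg k → ℝ) where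
  toFun y := fun s => y.1 (pl k s)
  map_add' x y := rfl
  map_smul' c x := rfl
  invFun x := (fun w => x ((pl k).symm w), fun _ => 0)
  left_inv y := by
    refine Prod.ext ?_ ?_
    · funext w
      change y.1 (pl k ((pl k).symm w)) = y.1 w
      rw [Equiv.apply_symm_apply]
    · funext w
      exact absurd (IsTotallyReal.isReal w.1) (not_isReal_iff_isComplex.2 w.2)
  right_inv x := by
    funext s
    change x ((pl k).symm (pl k s)) = x s
    rw [Equiv.symm_apply_apply]

/-- continuous version. -/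
noncomputable def L : mixedSpace k ≃L[ℝ] (Sg k → ℝ) := (Llin k).toContinuousLinearEquiv

theorem L_apply (y : mixedSpace k) (s : Sg k) : L k y s = y.1 (pl k s) := rfl

theorem L_symm_fst (x : Sg k → ℝ) (w : {w : InfinitePlace k // IsReal w}) :
    ((L k).symm x).1 w = x ((pl k).symm w) := rfl

theorem L_emb (x : k) : L k (mixedEmbedding k x) = lam x := by
  funext s
  rw [L_apply, mixedEmbedding_apply_isReal, pl_apply]
  rfl

/-- `√x` in the mixed space. -/
noncomputable def Y (x : Sg k → ℝ) : mixedSpace k := (L k).symm fun s => Real.sqrt (x s)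

theorem Y_cont : Continuous (Y k) := by
  refine (L k).symm.continuous.comp (continuous_pi fun s => ?_)
  exact Real.continuous_sqrt.comp (continuous_apply s)

theorem normAt_symm (x : Sg k → ℝ) (w : InfinitePlace k) :
    normAtPlace w ((L k).symm x) = |x ((pl k).symm ⟨w, IsTotallyReal.isReal w⟩)| := by
  rw [normAtPlace_apply_of_isReal (IsTotallyReal.isReal w), L_symm_fst, Real.norm_eq_abs]

theorem normAt_Y (x : Sg k → ℝ) (w : InfinitePlace k) :
    normAtPlace w (Y k x) = Real.sqrt (x ((pl k).symm ⟨w, IsTotallyReal.isReal w⟩)) := by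
  rw [Y, normAt_symm, abs_of_nonneg (Real.sqrt_nonneg _)]

theorem normAt_unit_Y (u : (𝓞 k)ˣ) (x : Sg k → ℝ) (w : InfinitePlace k) :
    normAtPlace w (u • Y k x) = normAtPlace w (Y k (lam ((u : 𝓞 k) : k) ^ 2 * x)) := by
  rw [unitSMul_smul, map_mul, normAt_Y, normAt_Y, normAtPlace_apply]
  obtain ⟨s, hs⟩ : ∃ s, s = (pl k).symm ⟨w, IsTotallyReal.isReal w⟩ := ⟨_, rfl⟩
  have hw : w = (pl k s).1 := by
    rw [hs, Equiv.apply_symm_apply]
  rw [← hs, hw, place_apply]
  change |s ((u : 𝓞 k) : k)| * Real.sqrt (x s) = Real.sqrt (s ((u : 𝓞 k) : k) ^ 2 * x s)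
  rw [Real.sqrt_mul (sq_nonneg _), Real.sqrt_sq_eq_abs]

theorem norm_Y (x : Sg k → ℝ) : mixedEmbedding.norm (Y k x) = ∏ s, Real.sqrt (x s) := by
  rw [mixedEmbedding.norm_apply]
  have h : ∀ w : InfinitePlace k, normAtPlace w (Y k x) ^ w.mult =
      Real.sqrt (x ((pl k).symm ⟨w, IsTotallyReal.isReal w⟩)) := by
    intro w
    rw [IsTotallyReal.mult_eq, pow_one, normAt_Y]
  rw [Finset.prod_congr rfl fun w _ => h w]
  refine Fintype.prod_equiv ((Equiv.subtypeUnivEquiv IsTotallyReal.isReal).symm.trans (pl k).symm)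
    _ _ fun w => rfl

/-- The cone. -/
def FF : Set (Sg k → ℝ) := {x | (∀ s, 0 < x s) ∧ Y k x ∈ fundamentalCone k}

theorem FF_meas : MeasurableSet (FF k) := by
  have h1 : MeasurableSet {x : Sg k → ℝ | ∀ s, 0 < x s} := by
    have : {x : Sg k → ℝ | ∀ s, 0 < x s} = ⋂ s, {x | 0 < x s} := by
      ext x
      simp
    rw [this]
    refine MeasurableSet.iInter fun s => ?_
    exact measurableSet_lt measurable_const (measurable_pi_apply s)
  exact h1.inter ((Y_cont k).measurable (measurableSet_fundamentalCone k))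

theorem FF_scal (x : Sg k → ℝ) (hx : x ∈ FF k) (t : ℝ) (ht : 0 < t) : t • x ∈ FF k := by
  refine ⟨fun s => mul_pos ht (hx.1 s), ?_⟩
  have h : Y k (t • x) = Real.sqrt t • Y k x := by
    rw [Y, Y, ← map_smul]
    congr 1
    funext s
    change Real.sqrt (t * x s) = Real.sqrt t * Real.sqrt (x s)
    rw [Real.sqrt_mul ht.le]
  rw [h]
  exact smul_mem_of_mem hx.2 (Real.sqrt_pos.2 ht).ne'

theorem FF_exi (x : Sg k → ℝ) (hx : ∀ s, 0 < x s) :
    ∃ η : (𝓞 k)ˣ, lam ((η : 𝓞 k) : k) ^ 2 * x ∈ FF k := by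
  have h : mixedEmbedding.norm (Y k x) ≠ 0 := by
    rw [norm_Y]
    exact Finset.prod_ne_zero_iff.2 fun s _ => (Real.sqrt_pos.2 (hx s)).ne'
  obtain ⟨u, hu⟩ := exists_unit_smul_mem h
  refine ⟨u, fun s => ?_, ?_⟩
  · change 0 < s ((u : 𝓞 k) : k) ^ 2 * x s
    have : s ((u : 𝓞 k) : k) ≠ 0 := by
      rw [Ne, map_eq_zero]
      exact RingOfIntegers.coe_ne_zero_iff.2 u.ne_zero
    have := hx s
    positivity
  · exact mem_of_normAtPlace_eq hu fun w => (normAt_unit_Y k u x w).symm

theorem FF_uni (x : Sg k → ℝ) (hx : x ∈ FF k) (η : (𝓞 k)ˣ)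
    (h : lam ((η : 𝓞 k) : k) ^ 2 * x ∈ FF k) : η = 1 ∨ η = -1 := by
  have h1 : η • Y k x ∈ fundamentalCone k :=
    mem_of_normAtPlace_eq h.2 fun w => normAt_unit_Y k η x w
  rw [unit_smul_mem_iff_mem_torsion hx.2, NumberField.Units.mem_torsion] at h1
  obtain ⟨w⟩ : Nonempty (InfinitePlace k) := inferInstance
  obtain ⟨s, hs⟩ : ∃ s, s = (pl k).symm ⟨w, IsTotallyReal.isReal w⟩ := ⟨_, rfl⟩
  have hw : w = (pl k s).1 := by
    rw [hs, Equiv.apply_symm_apply]
  have h2 := h1 w
  rw [hw] at h2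
  change (pl k s).1 ((η : 𝓞 k) : k) = 1 at h2
  rw [place_apply] at h2
  rcases eq_or_eq_neg_of_abs_eq h2 with h3 | h3
  · left
    have h4 : ((η : 𝓞 k) : k) = 1 := s.injective (h3.trans (map_one s).symm)
    exact Units.ext (RingOfIntegers.ext h4)
  · right
    have h4 : ((η : 𝓞 k) : k) = -1 := s.injective (by rw [h3, map_neg, map_one])
    refine Units.ext (RingOfIntegers.ext ?_)
    rw [h4]
    simp

theorem FF_cmp : ∃ c : ℝ, ∀ x ∈ FF k, ∀ s s', x s ≤ c * x s' := by
  classical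
  obtain ⟨r0, hr0⟩ : ∃ r0, ∀ y ∈ normLeOne k, ‖y‖ ≤ r0 :=
    (isBounded_iff_forall_norm_le (E := mixedSpace k)).mp (isBounded_normLeOne k)
  obtain ⟨r, hr1, hr⟩ : ∃ r : ℝ, 1 ≤ r ∧ ∀ y ∈ normLeOne k, ‖y‖ ≤ r :=
    ⟨max r0 1, le_max_right _ _, fun y hy => (hr0 y hy).trans (le_max_left _ _)⟩
  obtain ⟨n, hn⟩ : ∃ n, n = Fintype.card (Sg k) := ⟨_, rfl⟩
  have hn0 : n ≠ 0 := by
    rw [hn, (nor k inferInstance).1]
    exact finrank_pos.ne'
  refine ⟨r ^ 2 * (r ^ 2) ^ (n - 1), ?_⟩
  intro x hx s s'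
  obtain ⟨N, hN⟩ : ∃ N, N = ∏ s, x s := ⟨_, rfl⟩
  have hN0 : 0 < N := by
    rw [hN]
    exact Finset.prod_pos fun s _ => hx.1 s
  obtain ⟨t, ht0, ht⟩ : ∃ t : ℝ, 0 < t ∧ t ^ n * N = 1 := by
    refine ⟨(N⁻¹) ^ (1 / (n : ℝ)), Real.rpow_pos_of_pos (inv_pos.2 hN0) _, ?_⟩
    rw [← Real.rpow_natCast, ← Real.rpow_mul (inv_pos.2 hN0).le, one_div,
      inv_mul_cancel₀ (Nat.cast_ne_zero.2 hn0), Real.rpow_one, inv_mul_cancel₀ hN0.ne']
  obtain ⟨x', hx'⟩ : ∃ x', x' = t • x := ⟨_, rfl⟩
  have hx'F : x' ∈ FF k := by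
    rw [hx']
    exact FF_scal k x hx t ht0
  have hprod : ∏ s, x' s = 1 := by
    rw [hx', ← ht, hN, hn]
    simp only [Pi.smul_apply, smul_eq_mul]
    rw [Finset.prod_mul_distrib, Finset.prod_const, Finset.card_univ]
  have hb : ∀ s, x' s ≤ r ^ 2 := by
    intro s
    have h1 : Y k x' ∈ normLeOne k := by
      rw [mem_normLeOne]
      refine ⟨hx'F.2, ?_⟩
      rw [norm_Y, ← Real.sqrt_prod _ fun s _ => (hx'F.1 s).le, hprod, Real.sqrt_one]
    have h2 := hr _ h1
    have h3 : ‖(Y k x').1 (pl k s)‖ ≤ r :=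
      (norm_le_pi_norm _ _).trans ((norm_fst_le _).trans h2)
    rw [Y, L_symm_fst, Equiv.symm_apply_apply, Real.norm_eq_abs,
      abs_of_nonneg (Real.sqrt_nonneg _)] at h3
    have h4 := Real.sq_sqrt (hx'F.1 s).le
    have h5 := Real.sqrt_nonneg (x' s)
    nlinarith
  have hmain : x' s ≤ r ^ 2 * (r ^ 2) ^ (n - 1) * x' s' := by
    classical
    have h1 : x' s' * ∏ i ∈ Finset.univ.erase s', x' i = 1 := by
      rw [Finset.mul_prod_erase _ _ (Finset.mem_univ s'), hprod]
    have h2 : ∏ i ∈ Finset.univ.erase s', x' i ≤ (r ^ 2) ^ (n - 1) := by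
      calc ∏ i ∈ Finset.univ.erase s', x' i ≤ ∏ i ∈ Finset.univ.erase s', r ^ 2 :=
            Finset.prod_le_prod (fun i _ => (hx'F.1 i).le) fun i _ => hb i
        _ = (r ^ 2) ^ (n - 1) := by
            rw [Finset.prod_const, Finset.card_erase_of_mem (Finset.mem_univ s'),
              Finset.card_univ, hn]
    have h3 : 1 ≤ (r ^ 2) ^ (n - 1) * x' s' := by
      rw [← h1, mul_comm]
      exact mul_le_mul_of_nonneg_right h2 (hx'F.1 s').le
    calc x' s ≤ r ^ 2 * 1 := by rw [mul_one]; exact hb s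
      _ ≤ r ^ 2 * ((r ^ 2) ^ (n - 1) * x' s') :=
          mul_le_mul_of_nonneg_left h3 (sq_nonneg r)
      _ = r ^ 2 * (r ^ 2) ^ (n - 1) * x' s' := by ring
  rw [hx'] at hmain
  simp only [Pi.smul_apply, smul_eq_mul] at hmain
  have : t * x s ≤ t * (r ^ 2 * (r ^ 2) ^ (n - 1) * x s') := by
    calc t * x s ≤ r ^ 2 * (r ^ 2) ^ (n - 1) * (t * x s') := hmain
      _ = t * (r ^ 2 * (r ^ 2) ^ (n - 1) * x s') := by ring
  exact le_of_mul_le_mul_left this ht0

theorem null_T : volume {y : Sg k → ℝ | (L k).symm y ∈ frontier (normLeOne k)} = 0 := by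
  classical
  have h1 : (volume : Measure (Sg k → ℝ)) ≪ Measure.map (L k) volume :=
    Measure.absolutelyContinuous_isAddHaarMeasure _ _
  apply h1
  have h2 : MeasurableSet {y : Sg k → ℝ | (L k).symm y ∈ frontier (normLeOne k)} :=
    (L k).symm.continuous.measurable isClosed_frontier.measurableSet
  rw [Measure.map_apply (L k).continuous.measurable h2]
  have h3 : (L k) ⁻¹' {y : Sg k → ℝ | (L k).symm y ∈ frontier (normLeOne k)} =
      frontier (normLeOne k) := by
    ext y
    simp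
  rw [h3]
  exact volume_frontier_normLeOne k

theorem FF_null : volume (frontier (FF k ∩ {x | ∏ s, x s ≤ 1})) = 0 := by
  have hmem : ∀ x : Sg k → ℝ, (∀ s, 0 < x s) →
      (x ∈ FF k ∩ {x | ∏ s, x s ≤ 1} ↔ Y k x ∈ normLeOne k) := by
    intro x hx
    rw [mem_normLeOne, norm_Y, ← Real.sqrt_prod _ fun s _ => (hx s).le]
    have h1 : Real.sqrt (∏ s, x s) ≤ 1 ↔ ∏ s, x s ≤ 1 := by
      exact Real.sqrt_le_one
    rw [h1]
    exact ⟨fun h => ⟨h.1.2, h.2⟩, fun h => ⟨⟨hx, h.1⟩, h.2⟩⟩
  have hU : IsOpen {x : Sg k → ℝ | ∀ s, 0 < x s} := by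
    have : {x : Sg k → ℝ | ∀ s, 0 < x s} = ⋂ s, {x | 0 < x s} := by
      ext x
      simp
    rw [this]
    exact isOpen_iInter_of_finite fun s => isOpen_lt continuous_const (continuous_apply s)
  have hcl : ∀ x ∈ closure (FF k ∩ {x | ∏ s, x s ≤ 1}), ∀ s, 0 ≤ x s := by
    intro x hx s
    have h1 : IsClosed {x : Sg k → ℝ | 0 ≤ x s} := isClosed_le continuous_const (continuous_apply s)
    have h2 : closure (FF k ∩ {x | ∏ s, x s ≤ 1}) ⊆ {x : Sg k → ℝ | 0 ≤ x s} :=
      closure_minimal (fun y hy => (hy.1.1 s).le) h1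
    exact h2 hx
  have hsub : frontier (FF k ∩ {x | ∏ s, x s ≤ 1}) ⊆ (⋃ s : Sg k, {x : Sg k → ℝ | x s = 0}) ∪
      (fun y : Sg k → ℝ => fun s => y s ^ 2) ''
        {y : Sg k → ℝ | (L k).symm y ∈ frontier (normLeOne k)} := by
    intro x hx
    by_cases h0 : ∃ s, x s = 0
    · obtain ⟨s, hs⟩ := h0
      exact Or.inl (Set.mem_iUnion.2 ⟨s, hs⟩)
    · right
      push Not at h0
      have hpos : ∀ s, 0 < x s := fun s =>
        lt_of_le_of_ne (hcl x (frontier_subset_closure hx) s) (h0 s).symm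
      refine ⟨fun s => Real.sqrt (x s), ?_, ?_⟩
      · change Y k x ∈ frontier (normLeOne k)
        by_contra hno
        rw [frontier, Set.mem_sdiff, not_and, not_not] at hno
        rw [frontier, Set.mem_sdiff] at hx
        by_cases hc : Y k x ∈ closure (normLeOne k)
        · -- interior
          apply hx.2
          rw [mem_interior]
          refine ⟨{x | ∀ s, 0 < x s} ∩ Y k ⁻¹' interior (normLeOne k), ?_,
            hU.inter (isOpen_interior.preimage (Y_cont k)), hpos, hno hc⟩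
          intro y hy
          exact (hmem y hy.1).2 (interior_subset hy.2)
        · have h1 := mem_closure_iff.1 hx.1 ({x | ∀ s, 0 < x s} ∩ Y k ⁻¹' (closure (normLeOne k))ᶜ)
            (hU.inter (isClosed_closure.isOpen_compl.preimage (Y_cont k))) ⟨hpos, hc⟩
          obtain ⟨y, hy1, hy2⟩ := h1
          exact hy1.2 (subset_closure ((hmem y hy1.1).1 hy2))
      · funext s
        exact Real.sq_sqrt (hpos s).le
  refine measure_mono_null hsub (measure_union_null ?_ ?_)
  · rw [measure_iUnion_null_iff]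
    intro s
    rw [volume_pi]
    exact Measure.pi_hyperplane _ s 0
  · refine addHaar_image_eq_zero_of_differentiableOn_of_addHaar_eq_zero _ ?_ (null_T k)
    refine Differentiable.differentiableOn ?_
    rw [differentiable_pi]
    intro s
    exact (differentiable_apply s).pow 2

theorem fra : FraStmt := by
  intro k _ _ htr
  obtain ⟨c, hc⟩ := FF_cmp k
  refine ⟨{
    κ := Free.ChooseBasisIndex ℤ (𝓞 k)
    fin := inferInstance
    om := RingOfIntegers.basis k
    B := (mixedEmbedding.latticeBasis k).map (Llin k)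
    hB := ?_
    F := FF k
    meas := FF_meas k
    pos := fun x hx => hx.1
    scal := FF_scal k
    cF := c
    cmp := hc
    null := FF_null k
    exi := FF_exi k
    uni := FF_uni k }⟩
  intro i
  rw [Basis.map_apply, mixedEmbedding.latticeBasis_apply, integralBasis_apply]
  exact L_emb k _

end Pool.Agent.LeoK.H83
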